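import Pool.Agent.H731R6.Bc.Fin

/-!
Critical bond percolation on the half-infinite cylinder (square lattice rotated by 45 degrees, `n`
boundary vertices): the exact law of the number of boundary vertices in the cluster of a boundary
vertex, its scaling limit, and the limits of all moments.

Vertices `(a, t)`, `a : ZMod (2 n)` (column), `t : ℕ` (depth), `a + t` even; the cell `(a, t)` between
the columns `a`, `a + 1` and the depths `t`, `t + 1` contains exactly one edge of the lattice, the
diagonal between its two vertices.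
-/

set_option autoImplicit false

namespace Pool.Agent.Results.MP_35f495_pr.CylinderBoundaryClusters

open MeasureTheory Filter Topology

/-- configurations of the half-infinite cylinder: one bit for every cell -/
abbrev Conf (n : ℕ) : Type := ZMod (2 * n) × ℕ → Bool

/-- the two vertices of the cell `(a, t)` -/
def CellEnds (n : ℕ) (a : ZMod (2 * n)) (t : ℕ) (p r : ZMod (2 * n) × ℕ) : Prop :=
  (Even (a.val + t) ∧ p = (a, t) ∧ r = (a + 1, t + 1)) ∨
    (¬ Even (a.val + t) ∧ p = (a + 1, t) ∧ r = (a, t + 1))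

/-- `p` (upper end) and `r` (lower end) are the ends of an open edge -/
def OpenAdj (n : ℕ) (ω : Conf n) (p r : ZMod (2 * n) × ℕ) : Prop :=
  ∃ (a : ZMod (2 * n)) (t : ℕ), ω (a, t) = true ∧ CellEnds n a t p r

/-- independent fair coins: every edge is open with probability `1/2` -/
noncomputable def perc (n : ℕ) : Measure (Conf n) :=
  Measure.infinitePi (fun _ => (PMF.uniformOfFintype Bool).toMeasure)

/-- the boundary vertices in the open cluster of the boundary vertex `(0, 0)` -/
def bcl (n : ℕ) (ω : Conf n) : Set (ZMod (2 * n)) :=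
  {b | Relation.EqvGen (OpenAdj n ω) (0, 0) (b, 0)}

/-- (1) exact law; (2) scaling limit of the tail; (3) asymptotics of all moments. -/
theorem result :
    (∀ n k : ℕ, 1 ≤ k → k ≤ n → (perc n).real {ω | k ≤ (bcl n ω).ncard} =
      ((2 * k).choose k : ℝ) * (3 * k - 1) / (2 * (2 * k - 1)) *
      (((n + k - 1).factorial : ℝ) * (2 * n - k).factorial) /
        (((n - k).factorial : ℝ) * (2 * n + k - 1).factorial)) ∧
    (∀ x : ℝ, 0 < x → Tendsto (fun n : ℕ => (n : ℝ)^((1:ℝ)/3) *
        (perc n).real {ω | x * (n : ℝ)^((2:ℝ)/3) ≤ ((bcl n ω).ncard : ℝ)}) atTop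
      (𝓝 (3 / (2 * Real.sqrt Real.pi) * x^(-(1:ℝ)/2) * Real.exp (-(x^3 / 4))))) ∧
    (∀ m : ℕ, 1 ≤ m → Tendsto (fun n : ℕ =>
        (∫ ω, ((bcl n ω).ncard : ℝ)^m ∂(perc n)) / (n : ℝ)^((2 * (m : ℝ) - 1)/3)) atTop
      (𝓝 ((m : ℝ) / (2 * Real.sqrt Real.pi) * 4^((2 * (m : ℝ) - 1)/6) *
        Real.Gamma ((2 * (m : ℝ) - 1)/6)))) :=
  H731B.main

end Pool.Agent.Results.MP_35f495_pr.CylinderBoundaryClusters
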