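import Pool.Agent.H985R6.LC.All

/-!
Critical bond percolation on `ℤ²` (`p = 1/2`) in the upper half-plane: the derivative of Cardy's
formula, up to universal constants.

For `N ≥ 1` let `X` be the first vertex `k ≥ 0` of the boundary which is joined in the half-plane to
the interval `(-∞, -N]`. The probability of `X = k` is given, up to universal constants, by the
derivative of Cardy's function, for all `N ≥ 1` and `k ≥ 0`; hence so are all increments of the
crossing probabilities, at all scales and in the scaling limit (along any subsequence the limit law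
is absolutely continuous with a density comparable with the one predicted by Cardy's formula).

Definitions (starting library): `H974.sqLattice` (square lattice), `H974.bondLaw`,
`H974.openGraph`, `H731C.half` (the parameter `1/2`).
-/

set_option autoImplicit false

namespace Pool.Agent.Results.MP_35f495_pr.LocalCardy

open MeasureTheory Filter Topology H974

/-- the boundary sets `I × {0}` and `J × {0}` are joined by an open path of the closed upper
half-plane -/
def Joined (I J : Set ℤ) : Set (sqLattice.edgeSet → Bool) :=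
  {ω | ∃ x ∈ I, ∃ y ∈ J, ∃ p : (openGraph ω).Walk (x, 0) (y, 0), ∀ v ∈ p.support, 0 ≤ v.2}

/-- probabilities at the critical point `p = 1/2` -/
noncomputable def prob (A : Set (sqLattice.edgeSet → Bool)) : ℝ := (bondLaw H731C.half).real A

/-- Cardy's function -/
noncomputable def cardy (x : ℝ) : ℝ :=
  (∫ u in (0 : ℝ)..x, u ^ (-(2/3) : ℝ) * (1 - u) ^ (-(2/3) : ℝ)) /
    ∫ u in (0 : ℝ)..1, u ^ (-(2/3) : ℝ) * (1 - u) ^ (-(2/3) : ℝ)

/-- (1) the law of the first boundary vertex `k ≥ 0` joined to `(-∞, -N]`; (2) increments of the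
crossing probabilities on the lattice; (3) the same at macroscopic scales. -/
theorem result : ∃ c C : ℝ, 0 < c ∧ 0 < C ∧
    (∀ N k : ℤ, 1 ≤ N → 0 ≤ k →
      c * ((N : ℝ) ^ ((1 : ℝ) / 3) /
        (((k : ℝ) + 1) ^ ((2 : ℝ) / 3) * ((N : ℝ) + k) ^ ((2 : ℝ) / 3))) ≤
        prob (Joined (Set.Iic (-N)) {k} \ Joined (Set.Iic (-N)) (Set.Icc 0 (k - 1))) ∧
      prob (Joined (Set.Iic (-N)) {k} \ Joined (Set.Iic (-N)) (Set.Icc 0 (k - 1))) ≤
        C * ((N : ℝ) ^ ((1 : ℝ) / 3) /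
          (((k : ℝ) + 1) ^ ((2 : ℝ) / 3) * ((N : ℝ) + k) ^ ((2 : ℝ) / 3)))) ∧
    (∀ N k l : ℤ, 1 ≤ N → 0 ≤ k → k ≤ l →
      c * (cardy (((l + 1 : ℤ) : ℝ) / ((N : ℝ) + ((l + 1 : ℤ) : ℝ))) -
        cardy ((k : ℝ) / ((N : ℝ) + k))) ≤
        prob (Joined (Set.Iic (-N)) (Set.Icc 0 l)) -
          prob (Joined (Set.Iic (-N)) (Set.Icc 0 (k - 1))) ∧
      prob (Joined (Set.Iic (-N)) (Set.Icc 0 l)) -
        prob (Joined (Set.Iic (-N)) (Set.Icc 0 (k - 1))) ≤
        C * (cardy (((l + 1 : ℤ) : ℝ) / ((N : ℝ) + ((l + 1 : ℤ) : ℝ))) -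
          cardy ((k : ℝ) / ((N : ℝ) + k)))) ∧
    (∀ a b b' : ℝ, 0 < a → 0 ≤ b → b < b' → ∀ᶠ n : ℕ in atTop,
      c * (cardy (b' / (a + b')) - cardy (b / (a + b))) ≤
        prob (Joined {x : ℤ | (x : ℝ) ≤ -(a * n)} {y : ℤ | 0 ≤ y ∧ (y : ℝ) ≤ b' * n}) -
          prob (Joined {x : ℤ | (x : ℝ) ≤ -(a * n)} {y : ℤ | 0 ≤ y ∧ (y : ℝ) ≤ b * n}) ∧
      prob (Joined {x : ℤ | (x : ℝ) ≤ -(a * n)} {y : ℤ | 0 ≤ y ∧ (y : ℝ) ≤ b' * n}) -
        prob (Joined {x : ℤ | (x : ℝ) ≤ -(a * n)} {y : ℤ | 0 ≤ y ∧ (y : ℝ) ≤ b * n}) ≤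
        C * (cardy (b' / (a + b')) - cardy (b / (a + b)))) :=
  H985LC.final H985LC.all_wb H985LC.t_fd H985LC.t_lm H985LC.t_cy

end Pool.Agent.Results.MP_35f495_pr.LocalCardy
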