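import Pool.Agent.TH976.QC.Fin
import Pool.Agent.H160R2.SA.Arm

/-!
Critical bond percolation on `ℤ²` (`p = 1/2`) in the quadrant `[0, ∞)²`: the probability that two
disjoint intervals of the boundary are joined by an open path of the quadrant is given by Cardy's
formula, up to universal multiplicative constants, for all pairs of intervals (as small, as large and
as close to each other as one likes, on the same side of the corner or not, also unbounded ones), and
so is the probability that they are not joined.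

Definitions (starting library): `H974.sqLattice` (square lattice), `H974.bondLaw`,
`H974.openGraph`, `H731C.half` (the parameter `1/2`).
-/

set_option autoImplicit false

namespace Pool.Agent.Results.MP_35f495_pr.QuadrantCardy

open MeasureTheory H974

/-- the boundary vertex of the quadrant with parameter `t`: `(t, 0)` for `t ≥ 0`, `(0, -t)` for
`t ≤ 0` -/
def bdry (t : ℤ) : ℤ × ℤ := (max t 0, max (-t) 0)

/-- the probability that an open path of the quadrant joins the boundary sets `I` and `J` -/
noncomputable def conn (I J : Set ℤ) : ℝ :=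
  (bondLaw H731C.half).real {ω | ∃ x ∈ I, ∃ y ∈ J, ∃ p : (openGraph ω).Walk (bdry x) (bdry y),
    ∀ v ∈ p.support, 0 ≤ v.1 ∧ 0 ≤ v.2}

/-- Cardy's function -/
noncomputable def cardy (x : ℝ) : ℝ :=
  (∫ u in (0 : ℝ)..x, u ^ (-(2/3) : ℝ) * (1 - u) ^ (-(2/3) : ℝ)) /
    ∫ u in (0 : ℝ)..1, u ^ (-(2/3) : ℝ) * (1 - u) ^ (-(2/3) : ℝ)

/-- the image of the boundary point with parameter `t` under the conformal map `z ↦ z ^ 2` of the
quadrant onto the upper half-plane -/
noncomputable def sq (t : ℝ) : ℝ := t * |t|

/-- the cross-ratio -/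
noncomputable def cross (z₁ z₂ z₃ z₄ : ℝ) : ℝ := ((z₂ - z₁) * (z₄ - z₃)) / ((z₃ - z₁) * (z₄ - z₂))

/-- `p` is comparable with `f` and `1 - p` with `1 - f` -/
def Comparable (c C p f : ℝ) : Prop :=
  c * f ≤ p ∧ p ≤ C * f ∧ c * (1 - f) ≤ 1 - p ∧ 1 - p ≤ C * (1 - f)

/-- Cardy's formula up to universal constants in the quadrant: two bounded intervals; an unbounded
interval on the left; an unbounded interval on the right. -/
theorem result : ∃ c C : ℝ, 0 < c ∧ 0 < C ∧
    (∀ a b c' d : ℤ, a ≤ b → b < c' → c' ≤ d →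
      Comparable c C (conn (Set.Icc a b) (Set.Icc c' d))
        (cardy (cross (sq ((a : ℝ) - 1)) (sq b) (sq c') (sq ((d : ℝ) + 1))))) ∧
    (∀ b c' d : ℤ, b < c' → c' ≤ d →
      Comparable c C (conn (Set.Iic b) (Set.Icc c' d))
        (cardy ((sq ((d : ℝ) + 1) - sq c') / (sq ((d : ℝ) + 1) - sq b)))) ∧
    (∀ a b c' : ℤ, a ≤ b → b < c' →
      Comparable c C (conn (Set.Icc a b) (Set.Ici c'))
        (cardy ((sq b - sq ((a : ℝ) - 1)) / (sq c' - sq ((a : ℝ) - 1))))) :=
  TH976.QC.cardy_quadrant Pool.Agent.H160R2.SA.arSharp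

end Pool.Agent.Results.MP_35f495_pr.QuadrantCardy
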