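import Pool.Agent.H981R2.TP.Plane2

/-!
Critical bond percolation on `ℤ²` (`p = 1/2`): the probability that the tip of a slit is joined to the
right side of a slit strip, for all positions of the slit; exact values, and the limit, which is
exactly covariant under conformal maps; the same in the slit plane.

Coordinates: the column of the vertex `(u, v)` is `u - v`, its height `u + v`.
-/

set_option autoImplicit false

namespace Pool.Agent.Results.MP_35f495_pr.SlitTipCovariance

open MeasureTheory Filter Topology Finset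

/-- edges of `ℤ²`: `(u,v,false)` joins `(u,v)` and `(u+1,v)`; `(u,v,true)` joins `(u,v)` and
`(u,v+1)`. -/
abbrev Edge := ℤ × ℤ × Bool

/-- configurations (`true` = open) -/
abbrev Conf := Edge → Bool

/-- `x` and `y` are the two ends of an open edge -/
def OpenAdj (ω : Conf) (x y : ℤ × ℤ) : Prop :=
  (y = (x.1 + 1, x.2) ∧ ω (x.1, x.2, false) = true) ∨
  (x = (y.1 + 1, y.2) ∧ ω (y.1, y.2, false) = true) ∨
  (y = (x.1, x.2 + 1) ∧ ω (x.1, x.2, true) = true) ∨
  (x = (y.1, y.2 + 1) ∧ ω (y.1, y.2, true) = true)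

/-- bond percolation at `p = 1/2`: independent fair coins on the edges -/
noncomputable def perc : Measure Conf :=
  Measure.infinitePi (fun _ : Edge => (PMF.uniformOfFintype Bool).toMeasure)

/-- open edges of the plane slit along the column `1` above the tip `(1,0)`: the edges with both ends
at height at least `1` and one end in the column `1` are removed. -/
def SlitAdj (ω : Conf) (x y : ℤ × ℤ) : Prop :=
  OpenAdj ω x y ∧ ¬ (1 ≤ x.1 + x.2 ∧ 1 ≤ y.1 + y.2 ∧ (x.1 - x.2 = 1 ∨ y.1 - y.2 = 1))

/-- the slit strip: the columns between `1 - a` and `1 + b` -/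
def InStrip (a b : ℕ) (x : ℤ × ℤ) : Prop := 1 - (a : ℤ) ≤ x.1 - x.2 ∧ x.1 - x.2 ≤ 1 + b

/-- an open path of the slit strip joins the tip of the slit to the right side of the strip -/
def StripArm (a b : ℕ) : Set Conf :=
  {ω | ∃ y : ℤ × ℤ, y.1 - y.2 = 1 + b ∧
    Relation.ReflTransGen (fun x y => SlitAdj ω x y ∧ InStrip a b x ∧ InStrip a b y) (1, 0) y}

/-- an open path of the slit plane joins the tip of the slit to the column at distance `b` -/
def PlaneArm (b : ℕ) : Set Conf :=
  {ω | ∃ y : ℤ × ℤ, y.1 - y.2 = 1 + b ∧ Relation.ReflTransGen (SlitAdj ω) (1, 0) y}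

/-- the product `s (s + 1) ⋯ (s + k - 1)` -/
noncomputable def rising (s : ℝ) (k : ℕ) : ℝ := ∏ i ∈ range k, (s + i)

theorem strip_eq (a b : ℕ) : StripArm a b = Pool.Agent.H981R2.TP.PL.StripArm a b := by
  unfold StripArm Pool.Agent.H981R2.TP.PL.StripArm
  have : ∀ ω : Conf, (fun x y => SlitAdj ω x y ∧ InStrip a b x ∧ InStrip a b y) =
      Pool.Agent.H981R2.TP.PL.SAdj a b ω := by
    intro ω
    funext x y
    apply propext
    unfold Pool.Agent.H981R2.TP.PL.SAdj InStrip
    constructor
    · rintro ⟨h, ⟨h1, h2⟩, h3, h4⟩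
      exact ⟨h, h1, h2, h3, h4⟩
    · rintro ⟨h, h1, h2, h3, h4⟩
      exact ⟨h, ⟨h1, h2⟩, h3, h4⟩
  ext ω
  simp only [Set.mem_setOf_eq, this ω]

/-- The slit strip of widths `a` and `b`: exact value for odd `a` and even `b`; for `a, b → ∞` the
probability, multiplied by `(b (a + b) / a)^(1/6)`, tends to `√π / Γ(1/3)`; the slit plane. -/
theorem result :
    (∀ a b : ℕ, Odd a → Even b → 0 < b → perc.real (StripArm a b) =
      rising (2/3) a * rising (1/3) b * rising (1/2) (a + b) /
        (rising (1/2) a * rising (1/2) b * rising (2/3) (a + b))) ∧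
    (∀ a b : ℕ → ℕ, Tendsto a atTop atTop → Tendsto b atTop atTop →
      Tendsto (fun n => perc.real (StripArm (a n) (b n)) *
        ((b n : ℝ) * (a n + b n) / a n) ^ ((1:ℝ)/6)) atTop
        (𝓝 (Real.sqrt Real.pi / Real.Gamma (1/3)))) ∧
    (∀ b : ℕ, Even b → 0 < b → perc.real (PlaneArm b) = rising (1/3) b / rising (1/2) b) ∧
    Tendsto (fun b : ℕ => perc.real (PlaneArm b) * (b : ℝ) ^ ((1:ℝ)/6)) atTop
      (𝓝 (Real.sqrt Real.pi / Real.Gamma (1/3))) := by
  refine ⟨fun a b ha hb hb0 => ?_, fun a b ta tb => ?_, fun b hb hb0 => ?_, ?_⟩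
  · rw [strip_eq]
    exact Pool.Agent.H981R2.TP.PL.strip_exact ha hb hb0
  · simp only [strip_eq]
    exact Pool.Agent.H981R2.TP.PL.strip_asymp a b ta tb
  · exact Pool.Agent.H981R2.TP.PL.plane_exact hb hb0
  · exact Pool.Agent.H981R2.TP.PL.plane_asymp

end Pool.Agent.Results.MP_35f495_pr.SlitTipCovariance
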